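import Mathlib
import Pool.Agent.TH681.QC.RateT
import Pool.Agent.H297R2.ExpIndep

/-!
# Gel'fond's conjecture in bounded degree: integers `β` with few exceptions

For every degree bound `D` and all `l`, `k` there is a constant `C` such that for all `x ≥ 16` and
*all* `ℚ`-linearly independent algebraic numbers `α_1, ..., α_l` the numbers
`e^{α_1}, ..., e^{α_l}, log n_1, ..., log n_k` satisfy no nonzero polynomial relation
of total degree `≤ D` with algebraic coefficients, for all but
`C x ^ k (log log x) ^ C / log x` of the `k`-tuples of integers between `1` and `x`.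
-/

namespace Pool.Agent.Results.MP_c82530_nt.AlmostAllBetaRate

open Pool.Agent.H297R2

open Classical in
/-- **Main result.** -/
theorem result (l k D : ℕ) :
    ∃ C : ℕ, ∀ x : ℕ, 16 ≤ x →
      ∀ α : Fin l → ℂ, (∀ i, IsAlgebraic ℚ (α i)) → LinearIndependent ℚ α →
      (((Fintype.piFinset fun _ : Fin k => Finset.Icc 1 x).filter fun n =>
        ∃ P : MvPolynomial (Fin l ⊕ Fin k) (integralClosure ℚ ℂ), P ≠ 0 ∧ P.totalDegree ≤ D ∧
          MvPolynomial.aeval (Sum.elim (fun i => Complex.exp (α i))
            (fun j => (Real.log (n j) : ℂ))) P = 0).card : ℝ) ≤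
      C * Real.log (Real.log x) ^ C / Real.log x * (x : ℝ) ^ k := by
  obtain ⟨C, hC⟩ := Pool.Agent.TH681.QC.rate_tuples k (Fin l) D
  refine ⟨C, fun x hx α halg hα => ?_⟩
  refine le_trans ?_ (hC x hx (fun i => Complex.exp (α i)) (exp_noRel D α halg hα))
  apply Nat.cast_le.2
  apply Finset.card_le_card
  intro n hn
  rw [Finset.mem_filter] at hn ⊢
  obtain ⟨hn1, P, hP0, hPD, hP⟩ := hn
  refine ⟨?_, fun hN => ?_⟩
  · exact hn1
  · apply hP0
    have h' : NoRel (integralClosure ℚ ℂ) D
        (Sum.elim (fun i => Complex.exp (α i)) fun j => (Real.log (n j) : ℂ)) := by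
      refine NoRel.transfer
        ({ toFun := fun a => ⟨a.1, a.2⟩
           map_one' := rfl
           map_mul' := fun _ _ => rfl
           map_zero' := rfl
           map_add' := fun _ _ => rfl } : integralClosure ℚ ℂ →+* algebraicClosure ℚ ℂ) ?_ ?_ hN
      · intro a b hab
        exact Subtype.ext (congrArg Subtype.val hab)
      · intro a; rfl
    exact h' P hPD hP

end Pool.Agent.Results.MP_c82530_nt.AlmostAllBetaRate
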