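import Pool.Agent.TH519.GL.Final

/-!
# All exponentials have large degree over the field generated by a generic logarithm

Let `λ_1, ..., λ_N` be logarithms of algebraic numbers which are linearly independent over `ℚ`, and
let `c = ⌊(N + 1) ^ 2 / 4⌋`. There is a nonzero polynomial `Δ` with algebraic coefficients such that
for all algebraic `b_1, ..., b_N` (in particular for all integers) with `Δ(b) ≠ 0`, the number
`x = b_1 λ_1 + ... + b_N λ_N` has the following property: for all algebraic `α ≠ 0` the numbers
`1, e^α, ..., e^{(c - 1) α}` are linearly independent over the field `ℚ̄(x)`. Thus `e^α` and `x`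
satisfy no nonzero polynomial relation of degree `< c` in `e^α` and of arbitrary degree in `x`.

The proof. If the numbers `b_1 λ_1 + ... + b_N λ_N` which are algebraic over `ℚ̄(e^{rα})`, `r ∈ ℚ`,
are not all of them, then `b` belongs to one of finitely many proper subspaces (`Final`). Otherwise
all `λ_i` belong to a field of transcendence degree one. By the growth of the powers of the span of
`1` and the `λ_i` (`W256`), the curve with generic point `(λ_1, ..., λ_N)` has degree at least `c`,
and its generic linear projection to the line has this degree (`Core`, `Logs`). By Galois theory the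
field generated by `e^{rα}` and a generic `x` contains all the `λ_i`, simultaneously for all
rational `r ≠ 0`, since the conjugates of `e^α` over this field are its products by roots of unity of
bounded order (`Uni`).
-/

set_option autoImplicit false

namespace Pool.Agent.Results.MP_c82530_nt.DegreeOverGenericLog

/-- **Main result.** -/
theorem result (N : ℕ) (l : Fin N → ℂ) (halg : ∀ j, IsAlgebraic ℚ (Complex.exp (l j)))
    (hli : LinearIndependent ℚ l) :
    ∃ Δ : MvPolynomial (Fin N) (algebraicClosure ℚ ℂ), Δ ≠ 0 ∧
      ∀ b : Fin N → algebraicClosure ℚ ℂ, MvPolynomial.eval b Δ ≠ 0 →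
        ∀ α : ℂ, IsAlgebraic ℚ α → α ≠ 0 →
          ∀ p : Fin ((N + 1) ^ 2 / 4) → Polynomial (algebraicClosure ℚ ℂ),
            ∑ i, Polynomial.aeval (∑ j, (b j : ℂ) * l j) (p i) * Complex.exp α ^ (i : ℕ) = 0 →
              p = 0 := by
  obtain ⟨Δ, h1, h2⟩ := Pool.Agent.TH519.GL.uniform_degree l halg hli
  refine ⟨Δ, h1, fun b hb α hα hα0 p hp => ?_⟩
  exact Pool.Agent.TH519.GL.indep_of_degLe (Complex.exp α) (Pool.Agent.TH519.GL.cmb l b) _
    (h2 b hb ⟨α, mem_algebraicClosure_iff.mpr hα⟩ (fun h => hα0 (congrArg Subtype.val h))) p hp

end Pool.Agent.Results.MP_c82530_nt.DegreeOverGenericLog
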