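import Mathlib
import Pool.Agent.TH812.SF.Exp

/-!
# Exponentials of algebraic numbers and almost all tuples of independent logarithms

Let `𝓛(γ)` be the space of all linear combinations, with algebraic coefficients, of `1`, of `g` given
complex numbers and of arbitrary logarithms of algebraic numbers.  Let `α_1, ..., α_r` be algebraic
numbers, linearly independent over `ℚ`, and let `λ_1, ..., λ_n` be any logarithms of algebraic numbers
which are linearly independent over `ℚ`.  For all but `K n ^ (k - 1)` of the `n ^ k` tuples `s`, every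
polynomial `P(X, Y)` with algebraic coefficients, of degree at most `D` in `X = (X_1, ..., X_r)` and
of degree at most one in each of `Y_1, ..., Y_k`, which takes at
`(e ^ α_1, ..., e ^ α_r, λ_(s 1), ..., λ_(s k))` a value in `𝓛(γ)`, has the form
`P₀(X) + c_1 Y_1 + ... + c_k Y_k` with algebraic numbers `c_j`.  The constant `K` depends on
`r, k, D, g` only; it is uniform in `α`, `λ` and `γ`.

The proof combines the theorem of Lindemann and Weierstrass (`Pool.Agent.H297R2`), the hyperplane
case of the linear subgroup theorem of Waldschmidt and Roy (proved in the starting files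
`Pool.Agent.W254.HP`), Baker's theorem (`Pool.Agent.H297R2`) and an induction on the length of the
tuple (`Good`, `Dens`).
-/

set_option autoImplicit false

namespace Pool.Agent.Results.MP_c82530_nt.MultilinearInLogs

/-- The space of all linear combinations with algebraic coefficients of `1`, of the numbers `γ j` and
of logarithms of algebraic numbers. -/
noncomputable def LinForms {g : ℕ} (γ : Fin g → ℂ) : Submodule (algebraicClosure ℚ ℂ) ℂ :=
  Submodule.span (algebraicClosure ℚ ℂ)
    ({1} ∪ {z : ℂ | IsAlgebraic ℚ (Complex.exp z)} ∪ Set.range γ)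

/-- A polynomial with algebraic coefficients, of degree at most `D` in the variables `X` and of degree
at most one in each of the variables `Y`, is written as `∑_A Q_A(X) ∏_{j ∈ A} Y_j`; if it takes at
`(x, y)` a value in `LinForms γ` then `Q_A = 0` for all `A` with at least two elements, and `Q_A`
is constant for all `A` with one element. -/
def OnlyTrivial (D : ℕ) {r k g : ℕ} (x : Fin r → ℂ) (γ : Fin g → ℂ) (y : Fin k → ℂ) : Prop :=
  ∀ Q : Finset (Fin k) → MvPolynomial (Fin r) (algebraicClosure ℚ ℂ),
    (∀ A, (Q A).totalDegree ≤ D) →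
    ∑ A, MvPolynomial.aeval x (Q A) * ∏ j ∈ A, y j ∈ LinForms γ →
    (∀ A, 2 ≤ A.card → Q A = 0) ∧ ∀ j, ∃ c, Q {j} = MvPolynomial.C c

open Classical in
/-- **Main result.** -/
theorem result (r k D g : ℕ) :
    ∃ K : ℕ, ∀ α : Fin r → ℂ, (∀ i, IsAlgebraic ℚ (α i)) → LinearIndependent ℚ α →
      ∀ (n : ℕ) (l : Fin n → ℂ), (∀ i, IsAlgebraic ℚ (Complex.exp (l i))) →
      LinearIndependent ℚ l → ∀ γ : Fin g → ℂ,
        (Finset.univ.filter fun s : Fin k → Fin n =>
          ¬ OnlyTrivial D (fun i => Complex.exp (α i)) γ fun j => l (s j)).card * n ≤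
        K * n ^ k := by
  obtain ⟨K, hK⟩ := Pool.Agent.TH812.SF.main_good k (Module.finrank (algebraicClosure ℚ ℂ)
    (MvPolynomial.restrictTotalDegree (Fin r) (algebraicClosure ℚ ℂ) D)) g
  refine ⟨K, fun α hα hαli n l halg hli γ => ?_⟩
  set x : Fin r → ℂ := fun i => Complex.exp (α i) with hx
  refine le_trans ?_ (hK n l halg hli γ (Pool.Agent.TH812.SF.vals D x)
    (Pool.Agent.TH812.SF.vals_fin D x) (Pool.Agent.TH812.SF.vals_finrank D x)
    (Pool.Agent.TH812.SF.vals_one D x))
  apply Nat.mul_le_mul_right
  apply Finset.card_le_card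
  intro s hs
  rw [Finset.mem_filter] at hs ⊢
  refine ⟨hs.1, fun hG => hs.2 ?_⟩
  intro Q hQ hsum
  have h5 : LinForms γ = (Pool.Agent.H301R2.SSE.Lt ⊔
      Submodule.span Pool.Agent.H301R2.SSE.QB (Set.range γ) :
      Submodule Pool.Agent.H301R2.SSE.QB ℂ) := by
    rw [LinForms, Pool.Agent.H301R2.SSE.Lt, Submodule.span_union]
  rw [h5] at hsum
  have hNR := Pool.Agent.H297R2.exp_noRel (σ := Fin r) D α hα hαli
  obtain ⟨h1, h2⟩ := hG.1 (fun A => MvPolynomial.aeval x (Q A))
    (fun A => Pool.Agent.TH812.SF.vals_mem D x (Q A) (hQ A)) hsum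
  constructor
  · intro A hA
    exact hNR (Q A) (hQ A) (h1 A hA)
  · intro j
    obtain ⟨c, hc⟩ := Submodule.mem_one.mp (h2 j)
    refine ⟨c, ?_⟩
    have h3 := hNR (Q {j} - MvPolynomial.C c) (by
      refine (MvPolynomial.totalDegree_sub _ _).trans ?_
      rw [MvPolynomial.totalDegree_C]
      exact max_le (hQ _) (Nat.zero_le _)) (by
      rw [map_sub, MvPolynomial.aeval_C]
      show MvPolynomial.aeval x (Q {j}) - _ = 0
      rw [hc, sub_self])
    exact sub_eq_zero.mp h3

end Pool.Agent.Results.MP_c82530_nt.MultilinearInLogs
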