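import Pool.Agent.TH519.HS.VW
import Pool.Agent.TH519.HS.Log2

/-!
# Points on complex varieties whose coordinates are linear forms in logarithms

Let `f_1, ..., f_r` be polynomials in `Y_1, ..., Y_m` and parameters `C_1, ..., C_p` with arbitrary
complex coefficients, for example polynomials with algebraic coefficients in `Y`, `C` and the numbers
`e ^ α_1, ..., e ^ α_n`. Let `W` be a space of dimension `N` over the field `ℚ̄` of the algebraic
numbers which consists of linear forms in `1` and logarithms of algebraic numbers, with algebraic
coefficients. Consider the tuples `y` in `W ^ m` which satisfy all equations `f_j (y, c) = 0` for some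
algebraic parameters `c` (depending on `y`) such that the space of the vectors `v` with algebraic
coordinates which are tangent to the fibre, that is `∑ v_i (∂f_j/∂Y_i)(y, c) = 0` for all `j`, has
dimension at most `ρ`. We prove that they lie in an algebraic subset of `W ^ m` of dimension at most

`m (m - 1) + ρ N + p`.

For `ρ = 0` and `p = 0` the bound `m (m - 1)` depends neither on `W` nor on the degrees. If algebraic
relations between logarithms come from linear relations, then a variety over `ℚ̄` contains only those
points of `W ^ m` which lie in affine subspaces defined over `ℚ̄` and contained in the variety; the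
theorem says that this is true up to an error `m (m - 1)` in the dimension.

The second part counts the integer matrices `A` for which `A l` is such a point, where
`l_1, ..., l_N` are linearly independent logarithms of algebraic numbers.

The proof: at a generic point `y` of such a family, over an ultrapower of `ℚ̄`, the derivations with
respect to `d + 1` independent linear forms in the coordinates of `y` extend to derivations of the
ultrapower of `ℂ` which vanish on `ℂ` (`FE.Ops`). Those combinations of them which vanish on the
parameters map `y` to tangent vectors `dy` of the complex fibre with coordinates in the span of `W`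
(`HS.Mas`). By the hyperplane case of the linear subgroup theorem of Waldschmidt and Roy (`W254.HP`)
there are at most `m (m - 1)` independent ones modulo those which are combinations of the algebraic
tangent vectors (`HS.Lin`). The counting uses a linear Noether normalisation (`HS.Cnt`).
-/

set_option autoImplicit false

namespace Pool.Agent.Results.MP_c82530_nt.PointsOnComplexVarieties

/-- The space of all linear combinations, with algebraic coefficients, of `1` and of logarithms of
algebraic numbers. -/
noncomputable def LogForms : Submodule (algebraicClosure ℚ ℂ) ℂ :=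
  Submodule.span (algebraicClosure ℚ ℂ) ({1} ∪ {z : ℂ | IsAlgebraic ℚ (Complex.exp z)})

/-- The space of the vectors `v` with algebraic coordinates such that the derivatives of all `f j`
at `z` in the direction `v` (of the first `m` variables) vanish. -/
noncomputable def AlgTangents {m p r : ℕ} (f : Fin r → MvPolynomial (Fin m ⊕ Fin p) ℂ)
    (z : Fin m ⊕ Fin p → ℂ) :
    Submodule (algebraicClosure ℚ ℂ) (Fin m → algebraicClosure ℚ ℂ) where
  carrier := {v | ∀ j, ∑ i, (v i : ℂ) *
    MvPolynomial.eval z (MvPolynomial.pderiv (Sum.inl i) (f j)) = 0}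
  add_mem' := by
    intro v w hv hw j
    have h1 := hv j
    have h2 := hw j
    simp only [Pi.add_apply, IntermediateField.coe_add, add_mul, Finset.sum_add_distrib, h1, h2,
      add_zero]
  zero_mem' := by
    intro j
    simp only [Pi.zero_apply, IntermediateField.coe_zero, zero_mul, Finset.sum_const_zero]
  smul_mem' := by
    intro c v hv j
    have h1 := hv j
    simp only [Pi.smul_apply, smul_eq_mul, IntermediateField.coe_mul, mul_assoc,
      ← Finset.mul_sum, h1, mul_zero]

/-- For some algebraic parameters `c` the point `y` satisfies the equations `f j (y, c) = 0`, and the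
space of algebraic tangent vectors has dimension at most `ρ`. -/
def OnFamily {m p r : ℕ} (f : Fin r → MvPolynomial (Fin m ⊕ Fin p) ℂ) (ρ : ℕ)
    (y : Fin m → ℂ) : Prop :=
  ∃ c : Fin p → algebraicClosure ℚ ℂ,
    (∀ j, MvPolynomial.eval (Sum.elim y fun k => (c k : ℂ)) (f j) = 0) ∧
    Module.finrank (algebraicClosure ℚ ℂ) (AlgTangents f (Sum.elim y fun k => (c k : ℂ))) ≤ ρ

theorem relP_eq {m p r : ℕ} (f : Fin r → MvPolynomial (Fin m ⊕ Fin p) ℂ)
    (z : Fin m ⊕ Fin p → ℂ) : Pool.Agent.TH519.HS.RelP z f = AlgTangents f z := rfl

/-- **Main result.** -/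
theorem result {m p r : ℕ} (f : Fin r → MvPolynomial (Fin m ⊕ Fin p) ℂ) (ρ : ℕ) :
    (∀ (W : Submodule (algebraicClosure ℚ ℂ) ℂ) [FiniteDimensional (algebraicClosure ℚ ℂ) W],
      W ≤ LogForms →
      ∀ φ : Fin (m * (m - 1) + ρ * Module.finrank (algebraicClosure ℚ ℂ) W + p + 1) →
        ((Fin m → W) →ₗ[algebraicClosure ℚ ℂ] algebraicClosure ℚ ℂ),
      ∃ P : MvPolynomial (Fin (m * (m - 1) + ρ * Module.finrank (algebraicClosure ℚ ℂ) W + p + 1))
          (algebraicClosure ℚ ℂ), P ≠ 0 ∧
        ∀ y : Fin m → W, OnFamily f ρ (fun i => (y i : ℂ)) →
          MvPolynomial.eval (fun k => φ k y) P = 0) ∧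
    ∀ (N : ℕ) (l : Fin N → ℂ), (∀ j, IsAlgebraic ℚ (Complex.exp (l j))) →
      LinearIndependent ℚ l →
      ∃ κ : ℕ, ∀ H : ℕ, 1 ≤ H →
        Set.ncard {A : Fin m → Fin N → ℤ | (∀ i j, |A i j| ≤ H) ∧
          OnFamily f ρ (fun i => ∑ j, (A i j : ℂ) * l j)} ≤
        κ * H ^ (m * (m - 1) + ρ * N + p) := by
  constructor
  · intro W _ hW φ
    obtain ⟨P, h1, h2⟩ := Pool.Agent.TH519.HS.fam_dim (ρ := ρ) W hW f φ
    refine ⟨P, h1, ?_⟩
    rintro y ⟨c, h3, h4⟩
    refine h2 y c h3 ?_
    rw [relP_eq]
    exact h4
  · intro N l halg hli
    have h1 : LinearIndependent (algebraicClosure ℚ ℂ) l := by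
      have h2 := Pool.Agent.TH519.HS.li_cons l halg hli
      have h3 := h2.comp Fin.succ (Fin.succ_injective N)
      have h4 : (Fin.cons 1 l : Fin (N + 1) → ℂ) ∘ Fin.succ = l := by
        funext i
        rw [Function.comp_apply, Fin.cons_succ]
      rwa [h4] at h3
    exact Pool.Agent.TH519.HS.fam_count (ρ := ρ) l h1
      (fun j => Pool.Agent.H301R2.SSE.Lt_log (halg j)) f

end Pool.Agent.Results.MP_c82530_nt.PointsOnComplexVarieties
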